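import Mathlib

set_option autoImplicit false

namespace Pool.Agent.Results.MP_49446c_co.Yes

open BoundedContinuousFunction MeasureTheory Filter Topology Finset ComplexConjugate

variable {G : Type*} [CommGroup G] [TopologicalSpace G] [DiscreteTopology G]

def IsMean (m : (G →ᵇ ℝ) →ₗ[ℝ] ℝ) : Prop := (∀ f, 0 ≤ f → 0 ≤ m f) ∧ m 1 = 1

def IsInv (m : (G →ᵇ ℝ) →ₗ[ℝ] ℝ) : Prop :=
  ∀ (f h : G →ᵇ ℝ) (g : G), (∀ x, h x = f (x * g)) → m h = m f

noncomputable def ind (S : Set G) : G →ᵇ ℝ :=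
  BoundedContinuousFunction.indicator S (isClopen_discrete S)

noncomputable def dstar (A : Set G) : ℝ := sSup {r | ∃ m, IsMean m ∧ IsInv m ∧ r = m (ind A)}

def bohr {k : ℕ} (χ : Fin k → PontryaginDual G) (ε : ℝ) : Set G :=
  {g | ∀ j, ‖(χ j g : ℂ) - 1‖ < ε}

theorem mono {m : (G →ᵇ ℝ) →ₗ[ℝ] ℝ} (h : IsMean m) {f g : G →ᵇ ℝ} (l : ∀ x, f x ≤ g x) :
    m f ≤ m g := by
  have := h.1 (g - f) fun x => sub_nonneg.2 (l x)
  rwa [map_sub, sub_nonneg] at this

theorem le_c {m : (G →ᵇ ℝ) →ₗ[ℝ] ℝ} (h : IsMean m) {f : G →ᵇ ℝ} {c : ℝ} (l : ∀ x, f x ≤ c) :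
    m f ≤ c := by
  simpa [h.2] using mono h (g := c • 1) (by simpa using l)

theorem cev (g : G) : Continuous fun χ : PontryaginDual G => (χ g : ℂ) :=
  continuous_subtype_val.comp ((continuous_eval_const (F := C(G, Circle)) g).comp
    (ContinuousMonoidHom.isInducing_toContinuousMap G Circle).continuous)

theorem kernel {W : Set (PontryaginDual G)} (o : IsOpen W) (h1 : 1 ∈ W) {ε : ℝ} (hε : 0 < ε) :
    ∃ l : Multiset G, ∀ θ ∉ W, ‖(l.map fun a => (1 + (θ a : ℂ)) / 2).prod‖ < ε := by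
  have b : ∀ (θ : PontryaginDual G) a, ‖(1 + (θ a : ℂ)) / 2‖ ≤ 1 := fun θ a => by
    rw [norm_div, div_le_one (by simp)]
    exact (norm_add_le _ _).trans (by simp; norm_num)
  have b' : ∀ (θ : PontryaginDual G) (l : Multiset G),
      ‖(l.map fun a => (1 + (θ a : ℂ)) / 2).prod‖ ≤ 1 := fun θ l =>
    Multiset.prod_induction (‖·‖ ≤ 1) _ (fun x y p q => (norm_mul_le _ _).trans
      (mul_le_one₀ p (norm_nonneg _) q)) (by simp) (by simpa using fun a _ => b θ a)
  refine o.isClosed_compl.isCompact.elim_directed_cover (fun l : Multiset G =>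
    {θ | ‖(l.map fun a => (1 + (θ a : ℂ)) / 2).prod‖ < ε}) (fun l => isOpen_lt
      (continuous_multiset_prod _ fun a _ => by have := cev a; fun_prop).norm continuous_const)
    (fun θ hθ => ?_) fun l k => ⟨l + k, fun θ h => ?_, fun θ h => ?_⟩
  · obtain ⟨a, ha⟩ : ∃ a, θ a ≠ 1 := by
      by_contra z
      exact hθ ((PontryaginDual.ext (by simpa using z) : θ = 1) ▸ h1)
    have : ‖(1 + (θ a : ℂ)) / 2‖ < 1 := by
      rw [norm_div, div_lt_one (by simp)]
      simpa [one_add_one_eq_two] using norm_add_lt_of_not_sameRay (x := (1 : ℂ)) (y := θ a) fun s =>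
        ha (Circle.ext (s.eq_of_norm_eq (by simp)).symm)
    obtain ⟨n, hn⟩ := exists_pow_lt_of_lt_one hε this
    exact Set.mem_iUnion.2 ⟨Multiset.replicate n a, by simpa using hn⟩
  all_goals
    simp only [Set.mem_ofPred_eq, Multiset.map_add, Multiset.prod_add, norm_mul] at h ⊢
  · exact (mul_le_of_le_one_right (norm_nonneg _) (b' θ k)).trans_lt h
  · exact (mul_le_of_le_one_left (norm_nonneg _) (b' θ l)).trans_lt h

variable [MeasurableSpace (PontryaginDual G)] [BorelSpace (PontryaginDual G)]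

theorem small (μ : Measure (PontryaginDual G)) [IsFiniteMeasure μ] [μ.OuterRegular] [NullSingletonClass μ]
    {ε : ℝ} (hε : 0 < ε) : ∃ W : Set (PontryaginDual G), IsOpen W ∧ 1 ∈ W ∧
      ∀ ψ, μ.real {χ | ψ⁻¹ * χ ∈ W} ≤ ε := by
  have : ∀ ψ : PontryaginDual G, ∃ V ∈ 𝓝 (1 : PontryaginDual G), ∃ U, μ.real U ≤ ε ∧
      ∀ v ∈ V, ∀ w ∈ V, ψ * (v * w) ∈ U := fun ψ => by
    obtain ⟨U, u1, u2, u3⟩ := Set.exists_isOpen_lt_of_lt (μ := μ) {ψ} (.ofReal ε) (by simpa)
    obtain ⟨V, v1, v2⟩ := exists_nhds_one_split ((u2.preimage (continuous_const_mul ψ)).mem_nhds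
      (by simpa using u1))
    exact ⟨V, v1, U, ENNReal.toReal_le_of_le_ofReal hε.le u3.le, v2⟩
  choose V v1 U u1 u2 using this
  obtain ⟨t, ht⟩ := CompactSpace.elim_nhds_subcover (fun ψ => {x | ψ⁻¹ * x ∈ V ψ}) fun ψ =>
    (continuous_const_mul ψ⁻¹).continuousAt.preimage_mem_nhds (by simpa using v1 ψ)
  refine ⟨interior (⋂ ψ ∈ t, V ψ), isOpen_interior, mem_interior_iff_mem_nhds.2
    ((biInter_finset_mem t).2 fun ψ _ => v1 ψ), fun ψ => ?_⟩
  obtain ⟨φ, h1, h2⟩ := Set.mem_iUnion₂.1 (ht.ge (Set.mem_univ ψ))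
  refine (measureReal_mono fun χ h => ?_).trans (u1 φ)
  simpa using u2 φ _ h2 _ (Set.mem_iInter₂.1 (interior_subset h) φ h1)

theorem wiener {m : (G →ᵇ ℝ) →ₗ[ℝ] ℝ} (h : IsMean m) (hi : IsInv m)
    (μ : Measure (PontryaginDual G)) [IsFiniteMeasure μ] [μ.OuterRegular] [NullSingletonClass μ]
    (f : G →ᵇ ℝ) (hf : ∀ g, f g = ‖∫ χ, conj (χ g : ℂ) ∂μ‖) : m f ≤ 0 := by
  classical
  have I : ∀ {F : PontryaginDual G → ℂ}, Continuous F → Integrable F μ := fun c =>
    c.integrable_of_hasCompactSupport (.of_compactSpace _)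
  set M := μ.real Set.univ
  have key : ∀ ε > 0, m (f * f) ≤ (ε * M + ε) * M := fun ε hε => by
    obtain ⟨W, o, w1, w2⟩ := small μ hε
    obtain ⟨l, hl⟩ := kernel o w1 hε
    let b : Finset l → G := fun T => ∏ i ∈ T, (i : G)
    let s : Finset l → G →ᵇ ℝ := fun T =>
      (f * f).compContinuous ⟨fun x => x * b T, continuous_of_discreteTopology⟩
    have p : (0 : ℝ) < 2 ^ Fintype.card l := by positivity
    have e : m (∑ T, s T) = 2 ^ Fintype.card l * m (f * f) := by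
      rw [map_sum, sum_congr rfl fun T _ => hi (f * f) (s T) (b T) fun _ => rfl]
      simp
    refine le_of_mul_le_mul_left (e ▸ le_c h fun g => ?_) p
    have e1 : ((∑ T, s T) g : ℂ) = ∫ ψ, ∫ χ, ∑ T, ((ψ⁻¹ * χ) (g * b T) : ℂ) ∂μ ∂μ := by
      have c : ∀ x, Continuous fun χ : PontryaginDual G => conj (χ x : ℂ) := fun x =>
        Complex.continuous_conj.comp (cev x)
      have : ∀ (ψ χ : PontryaginDual G) x, ((ψ⁻¹ * χ) x : ℂ) = conj (ψ x : ℂ) * χ x :=
        fun ψ χ x => by rw [← Circle.coe_inv_eq_conj, ← Circle.coe_mul]; rfl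
      have a : ∀ ψ : PontryaginDual G, ∫ χ, ∑ T, ((ψ⁻¹ * χ) (g * b T) : ℂ) ∂μ =
          ∑ T, conj (ψ (g * b T) : ℂ) * ∫ χ, (χ (g * b T) : ℂ) ∂μ := fun ψ => by
        simp only [this]
        rw [integral_finsetSum _ fun T _ => (I (cev _)).const_mul _]
        exact sum_congr rfl fun T _ => integral_const_mul _ _
      simp only [a]
      rw [integral_finsetSum _ fun T _ => (I (c _)).mul_const _]
      simp only [integral_mul_const, s, BoundedContinuousFunction.sum_apply, compContinuous_apply,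
        ContinuousMap.coe_mk, BoundedContinuousFunction.mul_apply, hf, integral_conj]
      push_cast
      exact sum_congr rfl fun T _ => by rw [Complex.conj_mul', ← sq, Complex.norm_conj]
    refine (Real.le_norm_self _).trans ?_
    rw [← Complex.norm_real, e1, ← mul_assoc]
    refine norm_integral_le_of_norm_le_const (.of_forall fun ψ => ?_)
    have ms : MeasurableSet {χ | ψ⁻¹ * χ ∈ W} := (o.preimage (continuous_const_mul _)).measurableSet
    refine (norm_integral_le_of_norm_le (g := fun χ => 2 ^ Fintype.card l * (ε +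
      {χ | ψ⁻¹ * χ ∈ W}.indicator 1 χ)) (((integrable_const _).add
        ((integrable_const _).indicator ms)).const_mul _) (.of_forall fun χ => ?_)).trans ?_
    · have q : ∀ θ : PontryaginDual G, ‖∑ T, (θ (g * b T) : ℂ)‖ =
          2 ^ Fintype.card l * ‖(l.map fun a => (1 + (θ a : ℂ)) / 2).prod‖ := fun θ => by
        rw [← Multiset.map_univ, ← prod_eq_multiset_prod, prod_div_distrib, prod_one_add]
        simp only [map_mul, Circle.coe_mul, ← mul_sum, norm_mul, Circle.norm_coe, b, map_prod]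
        have : ∀ T : Finset l, ((∏ i ∈ T, θ i : Circle) : ℂ) = ∏ i ∈ T, (θ i : ℂ) :=
          fun T => map_prod Circle.coeHom _ _
        simp only [this]
        simp [mul_div_cancel₀]
      by_cases z : ψ⁻¹ * χ ∈ W
      · rw [Set.indicator_of_mem (by exact z)]
        refine (norm_sum_le _ _).trans ?_
        simp [hε.le]
      · rw [q, Set.indicator_of_notMem (by exact z), add_zero]
        exact mul_le_mul_of_nonneg_left (hl _ z).le p.le
    · rw [integral_const_mul, integral_add (integrable_const _) ((integrable_const _).indicator ms),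
        integral_indicator_one ms, integral_const, smul_eq_mul, mul_comm M]
      gcongr
      exact w2 ψ
  have k2 : m (f * f) ≤ 0 := by
    refine ge_of_tendsto (f := fun ε => (ε * M + ε) * M) (x := 𝓝[>] 0)
      (tendsto_nhdsWithin_of_tendsto_nhds ?_) (eventually_mem_nhdsWithin.mono key)
    exact Continuous.tendsto' (by fun_prop) _ _ (by simp)
  refine le_of_forall_pos_le_add fun ε hε => ?_
  have := mono h (f := ε • f) (g := f * f + (ε * ε) • 1) fun x => by
    change ε * f x ≤ f x * f x + ε * ε * 1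
    nlinarith [sq_nonneg (f x - ε), sq_nonneg (f x), sq_nonneg ε]
  simp only [map_add, map_smul, h.2, smul_eq_mul] at this
  nlinarith

theorem result (S : Set G)
    (hS : ∀ (k : ℕ) (χ : Fin k → PontryaginDual G) (ε : ℝ), 0 < ε → 0 < dstar (S ∩ bohr χ ε)) :
    ∃ m : (G →ᵇ ℝ) →ₗ[ℝ] ℝ, IsMean m ∧ m (ind S) = 1 ∧
      (∀ (μ : Measure (PontryaginDual G)) [IsFiniteMeasure μ] [μ.OuterRegular] [NullSingletonClass μ]
        (f : G →ᵇ ℝ), (∀ g, f g = ‖∫ χ, conj (χ g : ℂ) ∂μ‖) → m f = 0) ∧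
      ∀ (k : ℕ) (χ : Fin k → PontryaginDual G) (ε : ℝ), 0 < ε → 0 < m (ind (bohr χ ε)) := by
  let I := {B : Set G // ∃ (k : ℕ) (χ : Fin k → PontryaginDual G) (ε : ℝ), 0 < ε ∧ B = bohr χ ε}
  have i0 : ∀ (A : Set G) x, 0 ≤ ind A x ∧ ind A x ≤ 1 := fun A x => by
    by_cases z : x ∈ A <;> simp [ind, BoundedContinuousFunction.indicator, z]
  have : ∀ B : I, ∃ ν : (G →ᵇ ℝ) →ₗ[ℝ] ℝ, IsMean ν ∧ (∀ A, S ∩ B ⊆ A → ν (ind A) = 1) ∧
      ∀ (μ : Measure (PontryaginDual G)) [IsFiniteMeasure μ] [μ.OuterRegular] [NullSingletonClass μ]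
        (f : G →ᵇ ℝ), (∀ g, f g = ‖∫ χ, conj (χ g : ℂ) ∂μ‖) → ν f = 0 := by
    rintro ⟨_, k, χ, ε, hε, rfl⟩
    obtain ⟨m, m1, m2, p⟩ : ∃ m, IsMean m ∧ IsInv m ∧ 0 < m (ind (S ∩ bohr χ ε)) := by
      by_contra z
      push Not at z
      exact (hS k χ ε hε).not_ge (Real.sSup_nonpos fun r ⟨m, a, b, c⟩ => c ▸ z m a b)
    refine ⟨(m (ind (S ∩ bohr χ ε)))⁻¹ • m ∘ₗ LinearMap.mulRight ℝ (ind (S ∩ bohr χ ε)),
      ⟨fun f hf => mul_nonneg (inv_nonneg.2 p.le) (m1.1 _ fun x => mul_nonneg (hf x) (i0 _ x).1),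
      by simp [p.ne']⟩, fun A hA => ?_, fun μ _ _ _ f hf => ?_⟩
    · have : ind A * ind (S ∩ bohr χ ε) = ind (S ∩ bohr χ ε) := by
        ext x
        by_cases z : x ∈ S ∩ bohr χ ε
        · simp [ind, BoundedContinuousFunction.indicator, hA z]
        · simp [ind, BoundedContinuousFunction.indicator, z]
      simp [this, p.ne']
    have f0 : ∀ x, 0 ≤ f x := fun x => hf x ▸ norm_nonneg _
    exact mul_eq_zero_of_right _ (le_antisymm ((mono m1 fun x => mul_le_of_le_one_right (f0 x)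
      (i0 _ x).2).trans (wiener m1 m2 μ f hf)) (m1.1 _ fun x => mul_nonneg (f0 x) (i0 _ x).1))
  choose ν n1 n2 n3 using this
  have : Nonempty I := ⟨⟨_, 0, nofun, 1, one_pos, rfl⟩⟩
  have : NeBot (⨅ B : I, 𝓟 {C : I | C.1 ⊆ B.1}) := by
    refine iInf_neBot_of_directed' ?_ fun B => principal_neBot_iff.2 ⟨B, fun _ h => h⟩
    rintro ⟨_, k, χ, ε, hε, rfl⟩ ⟨_, l, ψ, η, hη, rfl⟩
    refine ⟨⟨_, _, Fin.append χ ψ, min ε η, lt_min hε hη, rfl⟩, principal_mono.2 fun C h x hx j => ?_,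
      principal_mono.2 fun C h x hx j => ?_⟩
    · simpa using (h hx (Fin.castAdd _ j)).trans_le (min_le_left _ _)
    · simpa using (h hx (Fin.natAdd _ j)).trans_le (min_le_right _ _)
  let U := Ultrafilter.of (⨅ B : I, 𝓟 {C : I | C.1 ⊆ B.1})
  have : ∀ f, ∃ r, Tendsto (fun B => ν B f) U (𝓝 r) := fun f => by
    obtain ⟨r, -, h⟩ := (isCompact_Icc (a := -‖f‖) (b := ‖f‖)).ultrafilter_le_nhds
      (U.map fun B => ν B f) (le_principal_iff.2 (mem_map.2 (univ_mem' fun B => ⟨by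
        have := le_c (n1 B) (f := -f) (c := ‖f‖) fun x => (neg_le_abs _).trans (f.norm_coe_le_norm x)
        rw [map_neg] at this
        linarith, le_c (n1 B) fun x => (le_abs_self _).trans (f.norm_coe_le_norm x)⟩)))
    exact ⟨r, h⟩
  choose L hL using this
  have u : ∀ f r, (∀ᶠ B in U, ν B f = r) → L f = r := fun f r h =>
    tendsto_nhds_unique (hL f) (tendsto_const_nhds.congr' (h.mono fun _ => Eq.symm))
  refine ⟨⟨⟨L, fun f g => tendsto_nhds_unique (hL _) (by simpa using (hL f).add (hL g))⟩,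
    fun c f => tendsto_nhds_unique (hL _) (by simpa using (hL f).const_mul c)⟩,
    ⟨fun f hf => ge_of_tendsto' (hL f) fun B => (n1 B).1 f hf, u _ _ (.of_forall fun B => (n1 B).2)⟩,
    u _ _ (.of_forall fun B => n2 B _ Set.inter_subset_left),
    fun μ _ _ _ f hf => u _ _ (.of_forall fun B => n3 B μ f hf), fun k χ ε hε => ?_⟩
  refine one_pos.trans_eq (u _ _ (Ultrafilter.of_le _ (mem_iInf_of_mem ⟨_, k, χ, ε, hε, rfl⟩
    fun C h => n2 C _ (Set.inter_subset_right.trans h)))).symm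

end Pool.Agent.Results.MP_49446c_co.Yes
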